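import Pool.Agent.E8helper67.EL.Final
set_option autoImplicit false

/-!
Potential surjectivity of the Beilinson regulator on the integral part of `K_2` of every elliptic
curve with integral `j`-invariant, at any finite set of archimedean places.

Let `E` be an elliptic curve over a number field `K` whose `j`-invariant is an algebraic integer,
that is, `E` has potentially good reduction everywhere. Nothing else is assumed: `E` may have no
torsion point and no complex multiplication. Over suitable extensions `L` of `K` there are classes
in the part of `K_2(L(E)) ⊗ ℚ` that is unramified at all discrete valuations of `L(E)`, so in the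
integral part of `K_2(E_L) ⊗ ℚ`, whose regulators span `H¹(E_σ(ℂ), ℝ(1))`, simultaneously at any
finite number of places `σ` of `L` over given places of `K`.

Steps of the proof: a Weierstrass model with algebraic integers as coefficients and with unit
discriminant, with an explicit integral point of order six (`Pool.Agent.E8helper67.EL.exists_base`);
the minimal solution `F² - 4 = B² f` of the polynomial Pell equation of an integral torsion point is
integral, and after scaling monic (`exists_pell`, `pell_int`, `unit_of_unit`); at a complex place it
is a composite with a real factor only if the four roots of `f` are on a line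
(`collinear_of_realFactor`), and this is avoided by replacing the torsion point by a suitable
half of it, at most once for each of the given places (`exists_half`, `coll_of_tilde`,
`exists_good_point`); the theorem on the curves `z + 1/z = F(x)` of
`MP_15b3df_nt.PotentialSurjectivityH67`.
-/

namespace Pool.Agent.Results.MP_15b3df_nt.EllipticIntegralJH67

open Polynomial

open Pool.Agent.E8helper67.PS (RegIndep)

open Pool.Agent.E8helper67.EL (UnramOn mainE)

/-- Let `E` be an elliptic curve over a number field `K`, with integral `j`-invariant, and
`s_1, ..., s_M` (`M > 0`) embeddings of `K` into `ℂ` (repetitions are allowed). Then there are a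
number field `L` containing `K`, embeddings `σ_i` of `L` that extend the `s_i`, a monic polynomial
`F` over `L` with algebraic integers as coefficients, and algebraic integers `b_0, ..., b_{2M}` of
`L`, such that the function field `L(E)` is the fraction field of the coordinate ring of the plane
curve `z² - F(x) z + 1 = 0` over `L`, the symbols `{z, (x - b_k) / (x - b_l)}` in `K_2(L(E)) ⊗ ℚ`
are unramified at all discrete valuations of `L(E)`, and there are `2 M` loops in the complex points
of the open part `∏ (x - b_k) ≠ 0` of the plane curve, `2` of them over each `σ_i`, all in the
region `F'(x) ≠ 0` where the plane curve is smooth, such that the determinant of the regulators on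
these loops of the `2 M` symbols `{z, (x - b_k) / (x - b_0)}`, `1 ≤ k ≤ 2 M`, does not vanish. -/
theorem result.{u} (M : ℕ) (hM : 0 < M) (K : Type u) [Field K] [NumberField K]
    (s : Fin M → (K →+* ℂ)) (E : WeierstrassCurve K) [E.IsElliptic] (hj : IsIntegral ℤ E.j) :
    ∃ (L : Type u) (_ : Field L) (_ : NumberField L) (_ : Algebra K L)
      (σ : Fin M → (L →+* ℂ)) (F : L[X]) (b : Fin (M * 2 + 1) → L),
      (∀ i x, σ i (algebraMap K L x) = s i x) ∧
      F.Monic ∧ (∀ i, IsIntegral ℤ (F.coeff i)) ∧ (∀ k, IsIntegral ℤ (b k)) ∧
      UnramOn (E.map (algebraMap K L)) F b ∧ RegIndep (N := 2) F b σ :=
  mainE M hM K s E hj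

end Pool.Agent.Results.MP_15b3df_nt.EllipticIntegralJH67
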