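import Pool.Agent.E8helper18.LF.Unr
import Pool.Agent.E8helper18.LF.Reg
import Pool.Agent.E8helper18.LF.Smooth
import Pool.Agent.E8helper18.LF.Dom2
import Pool.Agent.E8helper18.LF.Rank
import Pool.Agent.E8helper18.LF.Ex
set_option autoImplicit false

/-!
The regulator on `H^{d+1}(X, ℚ(d + 1))`, `d = dim X`, for the total spaces `X` of families of toric
hypersurfaces of Apéry / Dwork / Beukers-Peters type over towers of graphs: the varieties
`W(z) = λ Φ(x)`, where `W(z_0, ..., z_N)` is any Laurent polynomial which is a product of a monomial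
and of sums of affinely independent monomials with coefficients roots of unity, whose Newton polytope
contains `0` in its interior, and `Φ = g ∏_{j,i} (x_j - φ_{j,i}(x_{j+1}, ..., x_n)) ^ ν_{j,i}` with
arbitrary integral polynomials `φ_{j,i}` and `g` over a number field and arbitrary multiplicities
`ν_{j,i} ≥ 0`.
-/

namespace Pool.Agent.Results.MP_15b3df_nt.LaurentFibrationsH18

open Pool.Agent.TH826.MK (KQ symb Unramified Torus)

open Pool.Agent.E8helper18.LF

open MvPolynomial

section defs

variable {K : Type*} [Field K] {N n : ℕ}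

/-- The condition on the Laurent polynomial: the coefficients are roots of unity, the exponents of
each factor are affinely independent, and `0` is an interior point of the Newton polytope. -/
def Tempered (W : Laurent K N) : Prop := W.Cyclotomic ∧ W.Simplices ∧ W.Interior

/-- The three examples satisfy the condition, and some nonzero integral linear form has a maximum
`≤ 1` on the Newton polytope. -/
def Examples (K : Type*) [Field K] : Prop :=
  (∀ N, Tempered (simplexW K N) ∧ (simplexW K N).HeightOne) ∧
  (∀ N, Tempered (dworkW K N) ∧ (dworkW K N).HeightOne) ∧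
  Tempered (aperyW K) ∧ (aperyW K).HeightOne

/-- The dimension of the space of the admissible coefficients is `∏_l r_l`, if all multiplicities
are positive, and at least `∏_l r_l - ∑ ∏_{l < j} (s_{j,i,l} - 1) ∏_{l > j} r_l` in general, where the
sum is over all `(j, i)` with `ν_{j,i} = 0`. -/
def ClassNumbers (D : Dat K N n) : Prop :=
  ((∀ j i, D.nu j i ≠ 0) → D.dim = ∏ l, D.B.r l) ∧ ∏ l, D.B.r l ≤ D.dim + D.defect

/-- The variety is smooth at all complex points (over `σ`) with `Φ ≠ 0`. -/
def Smooth (σ : K →+* ℂ) (D : Dat K N n) (lam : K) : Prop :=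
  ∀ (z : Fin (N + 1) → ℂ) (x : Fin (n + 1) → ℂ), (∀ i, z i ≠ 0) →
    D.W.eval σ z = σ lam * eval₂ σ x D.Phi → eval₂ σ x D.Phi ≠ 0 →
    (∃ i, deriv (fun t => D.W.eval σ (Function.update z i t)) (z i) ≠ 0) ∨
    ∃ j, deriv (fun t => eval₂ σ (Function.update x j t) D.Phi) (x j) ≠ 0

/-- If some nonzero integral linear form has a maximum `≤ 1` on the Newton polytope of `W` (for
example, if the polytope is reflexive), and `Φ` is not constant, then the coordinate ring is a
domain. -/
def Domain (D : Dat K N n) (lam : K) : Prop :=
  D.W.HeightOne → (∀ c : K, D.Phi ≠ C c) → IsDomain (D.CRing lam)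

/-- The image of a class in `K_{N+n+2} ⊗ ℚ` of a field with a homomorphism from the coordinate
ring. -/
noncomputable def image {D : Dat K N n} {lam : K} (c : D.KM lam) {L : Type*} [Field L]
    (f : D.CRing lam →+* L) : KQ L (N + 1 + (n + 1)) :=
  KQ.map (N + 1 + (n + 1)) f c

/-- The image is unramified at all discrete valuations of the field. -/
def UnramifiedIn {D : Dat K N n} {lam : K} (c : D.KM lam) {L : Type*} [Field L]
    (f : D.CRing lam →+* L) : Prop :=
  image c f ∈ Unramified L (N + 1 + (n + 1))

/-- The classes with admissible coefficients have unramified images in `K_{N+n+2} ⊗ ℚ` of all fields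
`L` with a homomorphism from the coordinate ring to `L` (for example of the function field). -/
def UnramifiedClasses.{u, v} {K : Type u} [Field K] {N n : ℕ} (D : Dat K N n) (lam : K) : Prop :=
  ∀ m, D.IsAdm m → ∀ (L : Type v) [Field L] (f : D.CRing lam →+* L),
    UnramifiedIn (D.cl lam m) f

/-- The torus lies in the complex points over `σ`. -/
def Over (σ : K →+* ℂ) (D : Dat K N n) (lam : K) (Γ : D.Tor lam) : Prop :=
  ∀ θ (x : K), Γ.e θ (D.mkC lam (C x)) = σ x

/-- There are tori `Γ_t` in the complex points (over `σ`), one for every corner `t` of the tower, such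
that the determinant of the regulators of all corner symbols
`{z_0, ..., z_N, x_0 - φ_{0,k_0}, ..., x_n - φ_{n,k_n}}` on the tori does not vanish. -/
def CornerRegulators (σ : K →+* ℂ) (D : Dat K N n) (lam : K) : Prop :=
  ∃ Γ : D.Ix → D.Tor lam, (∀ t, Over σ D lam (Γ t)) ∧ (D.cornerMat lam Γ).det ≠ 0

/-- There are as many tori in the complex points (over `σ`) as the dimension of the space of the
admissible coefficients, such that for every basis of this space the determinant of the regulators
of the classes of the basis on the tori does not vanish. -/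
def IndependentRegulators (σ : K →+* ℂ) (D : Dat K N n) (lam : K) : Prop :=
  ∃ Γ : Fin D.dim → D.Tor lam, (∀ t, Over σ D lam (Γ t)) ∧
    ∀ B : Fin D.dim → D.Ix → ℚ, D.IsBasis B → (D.regMat lam Γ B).det ≠ 0

end defs

/-- Let `σ` be a complex embedding of the number field `K`. Let
`W = z ^ m0 ∏_a ∑_j c_{a,j} z ^ e_{a,j}` be a Laurent polynomial in `z_0, ..., z_N` such that the
`c_{a,j}` are roots of unity in `K`, for each `a` the exponents `e_{a,j}` are affinely independent
(so each factor is a sum of monomials whose exponents are the vertices of a simplex), and `0` is an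
interior point of the Newton polytope of `W`. Examples are `z_0 + ⋯ + z_N + 1/(z_0 ⋯ z_N)`,
`(1 + z_0 + ⋯ + z_N) ^ (N + 2) / (z_0 ⋯ z_N)` (the mirrors of the Dwork pencils) and
`(x + y)(1 + z)(x + y + z)(1 + y + z)/(x y z)` (the pencil of K3 surfaces of the Apéry numbers for
`ζ(3)`). For `0 ≤ j ≤ n` let `φ_{j,0}, ..., φ_{j,r_j}` be different polynomials in the variables
`x_{j+1}, ..., x_n` whose coefficients are algebraic integers of `K`, let `g ≠ 0` be a polynomial in
`x_0, ..., x_n` whose coefficients are algebraic integers of `K`, let `ν_{j,i} ≥ 0` be integers, and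
`Φ = g ∏_{j,i} (x_j - φ_{j,i}) ^ ν_{j,i}`.

Let `Adm` be the space of the rational functions `m` on the corners `k = (k_0, ..., k_n)`,
`0 ≤ k_j ≤ r_j`, such that the sum of `m` over all values of one `k_j` (the others being fixed)
vanishes, and such that, for all `(j, i)` with `ν_{j,i} = 0`, for all `k` with `k_j = i` the sum of
`m` over all corners `k'` with `k'_j = i`, with `k'_l = k_l` for `l > j`, and with
`φ_{l,k'_l} = φ_{l,k_l}` on the graph `x_j = φ_{j,i}` for `l < j`, vanishes. The dimension of `Adm` is
`∏_l r_l`, if all `ν_{j,i}` are positive, and in general at least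
`∏_l r_l - ∑_{ν_{j,i} = 0} ∏_{l < j} (s_{j,i,l} - 1) ∏_{l > j} r_l`, where `s_{j,i,l}` is the number of
the different restrictions of the `φ_{l,t}` to the graph `x_j = φ_{j,i}`.

There is a constant `C` such that for all algebraic integers `λ` of `K` with `|σ λ| ≥ C` the following
holds for the variety `W(z) = λ Φ(x)`, `z_0 ⋯ z_N ≠ 0`, of dimension `N + n + 1`, and for its open part
`∏_{j,i} (x_j - φ_{j,i}) ≠ 0`.

The variety is smooth at its complex points over `σ` with `Φ ≠ 0`. If some nonzero integral linear
form has a maximum `≤ 1` on the Newton polytope of `W` (for example if the polytope is reflexive, in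
particular in the three examples) and `Φ` is not constant, the coordinate ring of the open part is a
domain.

For all `m` in `Adm` the class
`∑_k m_k {z_0, ..., z_N, x_0 - φ_{0,k_0}, ..., x_n - φ_{n,k_n}}` in `K_{N+n+2} ⊗ ℚ` of the coordinate
ring of the open part has an unramified image in `K_{N+n+2} ⊗ ℚ` of every field `L` with a
homomorphism from the coordinate ring to `L` (for example of the function field).

There are tori of dimension `N + n + 1` in the complex points (over `σ`) of the open part, one for
every corner, such that the determinant of the regulators of all corner symbols on the tori does not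
vanish; and there are `dim Adm` tori such that for every basis of `Adm` the determinant of the
regulators of the classes of the basis on the tori does not vanish. -/
theorem result.{u, v} (N n : ℕ) (K : Type u) [Field K] [NumberField K] (σ : K →+* ℂ)
    (D : Dat K N n) (hW : Tempered D.W) (hG : D.B.Graphs) (hI : D.B.Integral) :
    Examples K ∧ ClassNumbers D ∧ ∃ C : ℝ, ∀ lam : K, IsIntegral ℤ lam → C ≤ ‖σ lam‖ →
      Smooth σ D lam ∧ Domain D lam ∧ UnramifiedClasses.{u, v} D lam ∧
      CornerRegulators σ D lam ∧ IndependentRegulators σ D lam := by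
  refine ⟨⟨fun N => ?_, fun N => ?_, ?_⟩, ⟨finrank_Adm D, le_dim D⟩, ?_⟩
  · obtain ⟨h1, h2, h3, h4⟩ := good_simplexW K N
    exact ⟨⟨h1, h2, h3⟩, h4⟩
  · obtain ⟨h1, h2, h3, h4⟩ := good_dworkW K N
    exact ⟨⟨h1, h2, h3⟩, h4⟩
  · obtain ⟨h1, h2, h3, h4⟩ := good_aperyW K
    exact ⟨⟨h1, h2, h3⟩, h4⟩
  obtain ⟨Λ, hΛ1, hΛ⟩ := exists_tori (D := D) σ hW.1 hW.2.1 hW.2.2 hG
  obtain ⟨Λ', hΛ'1, hΛ'⟩ := exists_smooth D σ
  refine ⟨max Λ Λ', fun lam hlam hl => ?_⟩
  have hl1 := (le_max_left _ _).trans hl
  have hl2 := (le_max_right _ _).trans hl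
  have hl0 : lam ≠ 0 := by
    rintro rfl
    rw [map_zero, norm_zero] at hl1
    linarith
  obtain ⟨Γ, hΓσ, hΓ⟩ := hΛ lam hl1
  obtain ⟨e, he⟩ := exists_minor_tori Γ hΓ
  exact ⟨hΛ' lam hl2, fun hH hP => isDomain hW.1 hW.2.1 hW.2.2 hH hG hl0 hP,
    fun m hm L _ f => cl_mem_unramified f hW.1 hW.2.1 hW.2.2 hG hI hlam hm,
    ⟨Γ, hΓσ, hΓ⟩, ⟨fun l => Γ (e l), fun l => hΓσ (e l), fun B hB => he B hB.1 hB.2⟩⟩

end Pool.Agent.Results.MP_15b3df_nt.LaurentFibrationsH18
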