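import Pool.Agent.E8helper67.PS.Main
set_option autoImplicit false

/-!
Potential surjectivity of the Beilinson regulator on the integral part of `K_2` of hyperelliptic
curves, at any finite set of archimedean places.

Let `K` be a number field and `F` a monic polynomial with algebraic integers of `K` as coefficients,
`F² - 4 = B² f` with `f` separable of degree `2 g + 2`, and prime to `B` if `g ≠ 1`: the curve `C`
with equation `z + 1/z = F(x)`, that is, `y² = f(x)`, `y = (z - 1/z) / B(x)`, is of genus `g`. There
is no large parameter, and no point of `C` over `K` is given. Over suitable extensions `L` of `K`,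
the unramified classes `{z, (x - b) / (x - b')}`, `F(b) = ζ + 1/ζ`, `F(b') = ζ' + 1/ζ'` (`ζ`, `ζ'`
roots of unity) have regulators that span `H¹(C_σ(ℂ), ℝ(1))`, of dimension `2 g`, simultaneously at
any finite number of places `σ` of `L` over given places of `K`. The only condition is that, at the
given places, `F` is not `G ∘ H` with `G` real of degree at least two, `G - t` having only real
zeros for all `t` in `[-2, 2]` (such a composite has a real critical value of absolute value at
least two, see `Pool.Agent.E8helper67.PS.RealFactor.exists_crit`).
-/

namespace Pool.Agent.Results.MP_15b3df_nt.PotentialSurjectivityH67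

open Polynomial

open Pool.Agent.TH826.HD (PRing)

open Pool.Agent.E8helper67.PS

/-- Let `K` be a number field, `s_1, ..., s_M` (`M > 0`) embeddings of `K` into `ℂ` (repetitions are
allowed), `F` a monic polynomial over `K` whose coefficients are algebraic integers, and
`F² - 4 = B² f` with `f` separable of degree `2 g + 2`, and prime to `B` if `g ≠ 1`. Suppose that
no `s_i F` is of the form `G ∘ H` with `G` real of degree at least two such that for `t ∈ [-2, 2]`
all complex zeros of `G - t` are real (`RealFactor`). Then there are a number field `L` containing
`K`, embeddings `σ_i` of `L` that extend the `s_i`, and algebraic integers `b_0, ..., b_{2gM}` of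
`L` such that the coordinate ring of `z² - F(x) z + 1 = 0` over `L` is a domain, the symbols
`{z, (x - b_k) / (x - b_l)}` are unramified at all discrete valuations of the function field, and
there are `2 g M` loops in the complex points of the open part `∏ (x - b_k) ≠ 0` of the curve, `2 g`
of them over each `σ_i`, all in the region `F'(x) ≠ 0` where the plane curve is smooth, such that
the determinant of the regulators on these loops of the `2 g M` symbols
`{z, (x - b_k) / (x - b_0)}`, `1 ≤ k ≤ 2 g M`, does not vanish. -/
theorem result.{u, v} (g M : ℕ) (hM : 0 < M) (K : Type u) [Field K] [NumberField K]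
    (s : Fin M → (K →+* ℂ)) (F B f : K[X]) (hF : F.Monic)
    (hint : ∀ i, IsIntegral ℤ (F.coeff i)) (hBf : F ^ 2 - 4 = B ^ 2 * f) (hf : f.Separable)
    (hcop : IsCoprime B f ∨ g = 1) (hdeg : f.natDegree = 2 * g + 2)
    (hR : ∀ i, ¬ RealFactor (F.map (s i))) :
    ∃ (L : Type u) (_ : Field L) (_ : NumberField L) (_ : Algebra K L)
      (σ : Fin M → (L →+* ℂ)) (b : Fin (M * (2 * g) + 1) → L),
      (∀ i x, σ i (algebraMap K L x) = s i x) ∧
      (∀ k, IsIntegral ℤ (b k)) ∧
      IsDomain (PRing (F.map (algebraMap K L))) ∧
      SymbUnram.{v} (F.map (algebraMap K L)) b ∧
      RegIndep (N := 2 * g) (F.map (algebraMap K L)) b σ :=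
  main g M hM K s F B f hF hint hBf hf hcop hdeg hR

end Pool.Agent.Results.MP_15b3df_nt.PotentialSurjectivityH67
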