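import Pool.Agent.E8helper67.TR.Main
set_option autoImplicit false

/-!
Potential surjectivity of the Beilinson regulator on the integral part of `K_2` of hyperelliptic
curves at real places where the level sets over `[-2, 2]` are real.

Let `K` be a number field and `F` a monic polynomial with integers of `K` as coefficients,
`F² - 4 = B² f` with `f` separable of degree `2 g + 2`: the curve `C` with equation
`z + 1/z = F(x)`, that is, `y² = f(x)`, `y = (z - 1/z) / B(x)`, is of genus `g`. Suppose that at
some real places of `K` all complex solutions of `F(x) = t`, `t` in `[-2, 2]`, are real (for
example, `F` is the discriminant of a periodic discrete Schrödinger operator with a potential in the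
integers of `K`, that is, `C` is the spectral curve of a periodic Toda lattice, and the place is any
real place). Over suitable extensions `L` of `K`, the unramified classes `{z, (x - b) / (x - b')}`,
`F(b) = ζ + 1/ζ`, `F(b') = ζ' + 1/ζ'` (`ζ`, `ζ'` roots of unity) have regulators that span the
Deligne cohomology groups of `C` over the completions `ℝ` of `L`, of dimension `g`, simultaneously
at any finite number of places of `L` over the given places of `K`; all places of `L` over the given
ones are real, and `L` is totally real if `K` is totally real and the condition holds at each place
of `K`. There is no large parameter, and no point of `C` over `K` is given. This is the case that is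
left out in `Pool.Agent.Results.MP_15b3df_nt.PotentialSurjectivityH67`, where the regulators of the
symbols span spaces of dimension `2 g`.
-/

namespace Pool.Agent.Results.MP_15b3df_nt.RealBandsH67

open Polynomial

open Pool.Agent.TH826.HD (PRing)

open Pool.Agent.E8helper67.PS (SymbUnram)

open Pool.Agent.E8helper67.TR

/-- Let `K` be a number field, `s_1, ..., s_M` (`M > 0`) real embeddings of `K` (repetitions are
allowed), `F` a monic polynomial over `K` whose coefficients are algebraic integers, and
`F² - 4 = B² f` with `f` separable of degree `2 g + 2`. Suppose that for each `i` and each
`t ∈ [-2, 2]` all complex zeros of `s_i F - t` are real (`RealOver`). Then there are a number field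
`L` containing `K`, real over all real embeddings of `K` with this property (`RealExt`; in
particular `L` is totally real if `K` is totally real and all embeddings of `K` have this property),
embeddings `σ_i` of `L` that extend the `s_i`, and algebraic integers `b_0, ..., b_{gM}` of `L` such
that the coordinate ring of `z² - F(x) z + 1 = 0` over `L` is a domain, the symbols
`{z, (x - b_k) / (x - b_l)}` are unramified at all discrete valuations of the function field, and
there are `g M` loops in the complex points of the open part `∏ (x - b_k) ≠ 0` of the curve, `g` of
them over each `σ_i`, all in the region `F'(x) ≠ 0` where the plane curve is smooth and each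
reversed by complex conjugation, such that the determinant of the regulators on these loops of the
`g M` symbols `{z, (x - b_k) / (x - b_0)}`, `1 ≤ k ≤ g M`, does not vanish. -/
theorem result.{u, v} (g M : ℕ) (hM : 0 < M) (K : Type u) [Field K] [NumberField K]
    (s : Fin M → (K →+* ℂ)) (hs : ∀ i x, (s i x).im = 0) (F B f : K[X]) (hF : F.Monic)
    (hint : ∀ i, IsIntegral ℤ (F.coeff i)) (hBf : F ^ 2 - 4 = B ^ 2 * f) (hf : f.Separable)
    (hdeg : f.natDegree = 2 * g + 2) (hR : ∀ i, RealOver (F.map (s i))) :
    ∃ (L : Type u) (_ : Field L) (_ : NumberField L) (_ : Algebra K L)
      (σ : Fin M → (L →+* ℂ)) (b : Fin (M * g + 1) → L),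
      RealExt F L ∧
      (∀ i x, σ i (algebraMap K L x) = s i x) ∧
      (∀ k, IsIntegral ℤ (b k)) ∧
      IsDomain (PRing (F.map (algebraMap K L))) ∧
      SymbUnram.{v} (F.map (algebraMap K L)) b ∧
      ConjRegIndep (N := g) (F.map (algebraMap K L)) b σ :=
  main g M hM K s hs F B f hF hint hBf hf hdeg hR

end Pool.Agent.Results.MP_15b3df_nt.RealBandsH67
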